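import Mathlib
import Pool.Agent.H389R3.LP4

/-!
# Congruent zeros in a discrete valuation ring and the discriminant
-/

set_option autoImplicit false

open Finset Polynomial

namespace Pool.Agent.Y692.LA

open Pool.Agent.H389R3.LR Pool.Agent.H389R3.LP

section loc

variable {O : Type*} [CommRing O] [IsDomain O]

/-- number of ordered pairs of different members of `T` congruent modulo `π` -/
noncomputable def pairs (π : O) (T : Finset O) : ℕ := by
  classical exact ∑ s ∈ T, ((T.erase s).filter fun w => π ∣ s - w).card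

/-- divisibility of the resultant -/
theorem pow_pairs_dvd (Q : ℤ[X]) (hQ : Q.Monic) (π : O) (T : Finset O)
    (hT : ∀ s ∈ T, (Q.map (Int.castRingHom O)).eval s = 0) :
    π ^ (pairs π T) ∣
      ((resultant Q (derivative Q) Q.natDegree (derivative Q).natDegree : ℤ) : O) := by
  classical
  set φ := Int.castRingHom O with hφ
  set F := Q.map φ with hF
  set r := resultant Q (derivative Q) Q.natDegree (derivative Q).natDegree with hr
  have hFm : F.Monic := hQ.map φ
  have h1 := resultant_map_map Q (derivative Q) Q.natDegree (derivative Q).natDegree φ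
  rw [← hF, ← derivative_map, ← hF, ← hr] at h1
  have h3 : F.natDegree = Q.natDegree := hQ.natDegree_map φ
  set A : O[X] := ∏ s ∈ T, (X - C s) with hA
  have hAd : A ∣ F := by
    have h4 : T.val ≤ F.roots := by
      rw [Multiset.le_iff_subset T.nodup]
      intro s hs
      rw [mem_roots hFm.ne_zero]
      exact hT s hs
    have h5 := (Multiset.prod_X_sub_C_dvd_iff_le_roots hFm.ne_zero T.val).mpr h4
    exact h5
  obtain ⟨G, hG⟩ := hAd
  have hAm : A.Monic := monic_prod_of_monic _ _ fun z _ => monic_X_sub_C z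
  have hGm : G.Monic := hAm.of_mul_monic_left (hG ▸ hFm)
  have hdeg : A.natDegree + G.natDegree = Q.natDegree := by
    rw [← h3, hG, hAm.natDegree_mul hGm]
  have hn : (derivative F).natDegree ≤ (derivative Q).natDegree := by
    rw [hF, derivative_map]
    exact natDegree_map_le
  have h6 := resultant_mul_left A G (derivative F) (derivative Q).natDegree hn
  rw [← hG, hdeg, h1] at h6
  have hAs : A.Splits := Splits.prod fun s _ => Splits.X_sub_C s
  have h7 := resultant_eq_prod_eval A (derivative F) (derivative Q).natDegree hn hAs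
  have hroots : A.roots = T.val := roots_prod_X_sub_C T
  rw [hroots, hAm.leadingCoeff, one_pow, one_mul] at h7
  have h8 : (T.val.map (derivative F).eval).prod = ∏ s ∈ T, (derivative F).eval s := rfl
  rw [h8] at h7
  have h9 : π ^ (pairs π T) ∣ ∏ s ∈ T, (derivative F).eval s := by
    unfold pairs
    rw [← Finset.prod_pow_eq_pow_sum]
    refine Finset.prod_dvd_prod_of_dvd _ _ fun s hs => ?_
    have h10 : (derivative F).eval s = (∏ w ∈ T.erase s, (s - w)) * G.eval s := by
      rw [hG, derivative_mul, eval_add, eval_mul, eval_mul]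
      have h11 : A.eval s = 0 := by
        rw [hA, eval_prod]
        exact Finset.prod_eq_zero hs (by simp)
      rw [h11, zero_mul, add_zero, hA, eval_deriv_prod' T hs]
    rw [h10]
    refine Dvd.dvd.mul_right ?_ _
    rw [← Finset.prod_const]
    refine (Finset.prod_dvd_prod_of_dvd (fun _ => π) (fun w => s - w) fun w hw => ?_).trans
      (Finset.prod_dvd_prod_of_subset _ _ _ (Finset.filter_subset (fun w => π ∣ s - w) (T.erase s)))
    exact (Finset.mem_filter.mp hw).2
  have h12 : ((r : ℤ) : O) = φ r := rfl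
  rw [h12, h6, h7]
  exact h9.mul_right _

/-- the pigeonhole principle for units -/
theorem card_sq_le {κ : Type*} [Field κ] [Finite κ] (g : O →+* κ) (π : O)
    (hg : ∀ x : O, g x = 0 → π ∣ x) (T : Finset O) (hT : ∀ s ∈ T, g s ≠ 0) :
    (T.card : ℝ) ^ 2 ≤ ((Nat.card κ : ℝ) - 1) * (pairs π T + T.card) := by
  classical
  have : Fintype κ := Fintype.ofFinite κ
  set Y : Finset κ := Finset.univ.erase 0 with hY
  have hmap : ∀ s ∈ T, g s ∈ Y := fun s hs => by
    rw [hY, Finset.mem_erase]; exact ⟨hT s hs, Finset.mem_univ _⟩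
  have h1 : T.card = ∑ y ∈ Y, (T.filter fun s => g s = y).card :=
    Finset.card_eq_sum_card_fiberwise hmap
  have h2 : (∑ y ∈ Y, ((T.filter fun s => g s = y).card : ℝ)) ^ 2 ≤
      Y.card * ∑ y ∈ Y, ((T.filter fun s => g s = y).card : ℝ) ^ 2 := sq_sum_le_card_mul_sum_sq
  have hYc : (Y.card : ℝ) = (Nat.card κ : ℝ) - 1 := by
    rw [hY, Finset.card_erase_of_mem (Finset.mem_univ _), Finset.card_univ,
      ← Nat.card_eq_fintype_card, Nat.cast_sub (Nat.card_pos)]
    simp
  have h3 : ∑ y ∈ Y, ((T.filter fun s => g s = y).card : ℝ) ^ 2 =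
      ∑ s ∈ T, ((T.filter fun w => g w = g s).card : ℝ) := by
    rw [← Finset.sum_fiberwise_of_maps_to hmap]
    refine Finset.sum_congr rfl fun y _ => ?_
    have : ∀ s ∈ T.filter (fun s => g s = y), ((T.filter fun w => g w = g s).card : ℝ) =
        ((T.filter fun w => g w = y).card : ℝ) := by
      intro s hs
      rw [(Finset.mem_filter.mp hs).2]
    rw [Finset.sum_congr rfl this, Finset.sum_const, nsmul_eq_mul, sq]
  have h4 : ∑ s ∈ T, ((T.filter fun w => g w = g s).card : ℝ) ≤ pairs π T + T.card := by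
    unfold pairs
    push_cast
    have h5 : (T.card : ℝ) = ∑ s ∈ T, (1:ℝ) := by simp
    rw [h5, ← Finset.sum_add_distrib]
    refine Finset.sum_le_sum fun s hs => ?_
    have h6 : (T.filter fun w => g w = g s) ⊆
        insert s ((T.erase s).filter fun w => π ∣ s - w) := by
      intro w hw
      rw [Finset.mem_filter] at hw
      rw [Finset.mem_insert]
      by_cases hws : w = s
      · exact Or.inl hws
      · right
        rw [Finset.mem_filter, Finset.mem_erase]
        exact ⟨⟨hws, hw.1⟩, hg _ (by rw [map_sub, hw.2, sub_self])⟩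
    have h7 := (Finset.card_le_card h6).trans (Finset.card_insert_le _ _)
    exact_mod_cast h7
  have h8 : (T.card : ℝ) = ∑ y ∈ Y, ((T.filter fun s => g s = y).card : ℝ) := by
    exact_mod_cast h1
  have hYc0 : (0:ℝ) ≤ (Y.card : ℝ) := Nat.cast_nonneg _
  rw [← hYc]
  calc (T.card : ℝ) ^ 2 = (∑ y ∈ Y, ((T.filter fun s => g s = y).card : ℝ)) ^ 2 := by rw [h8]
    _ ≤ _ := h2
    _ ≤ _ := by
      rw [h3]
      exact mul_le_mul_of_nonneg_left h4 hYc0

variable [IsLocalRing O]

/-- the exponent of `p` in an integer divisible by a power of `π` -/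
theorem exists_exponent {p e : ℕ} (hp : p.Prime) (he : 1 ≤ e) {π : O} (hπ0 : π ≠ 0)
    (hπ : ¬ IsUnit π) (hassoc : Associated (π ^ e) (p : O)) {r : ℤ} (hr : r ≠ 0) {c : ℕ}
    (h : π ^ c ∣ (r : O)) : ∃ a : ℕ, c ≤ e * a ∧ (p : ℤ) ^ a ∣ r := by
  have hfin : FiniteMultiplicity (p : ℤ) r :=
    FiniteMultiplicity.of_prime_left (Nat.prime_iff_prime_int.mp hp) hr
  obtain ⟨u, hu, hnd⟩ := hfin.exists_eq_pow_mul_and_not_dvd
  set a := multiplicity (p : ℤ) r with ha
  refine ⟨a, ?_, ⟨u, hu⟩⟩
  have hcop : IsCoprime (p : ℤ) u := by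
    rw [(Nat.prime_iff_prime_int.mp hp).irreducible.coprime_iff_not_dvd]
    exact hnd
  obtain ⟨x, y, hxy⟩ := hcop
  have hpnu : ¬ IsUnit (p : O) := by
    intro h1
    apply hπ
    have h2 : IsUnit (π ^ e) := hassoc.symm.isUnit h1
    exact (isUnit_pow_iff (by omega)).mp h2
  have hu1 : IsUnit (u : O) := by
    have h2 : (x : O) * (p : O) + (y : O) * (u : O) = 1 := by
      have := congrArg (fun z : ℤ => (z : O)) hxy
      push_cast at this
      exact this
    rcases IsLocalRing.isUnit_or_isUnit_of_add_one h2 with h3 | h3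
    · exact absurd (isUnit_of_mul_isUnit_right h3) hpnu
    · exact isUnit_of_mul_isUnit_right h3
  rw [hu] at h
  push_cast at h
  have h2 : π ^ c ∣ (p : O) ^ a := (hu1.dvd_mul_right).mp h
  have h3 : Associated (π ^ (e * a)) ((p : O) ^ a) := by
    rw [pow_mul]; exact hassoc.pow_pow
  have h4 : π ^ c ∣ π ^ (e * a) := h2.trans h3.symm.dvd
  exact (pow_dvd_pow_iff hπ0 hπ).mp h4

end loc

end Pool.Agent.Y692.LA
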