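import Mathlib
import Pool.Agent.Y692.LA.A1

/-!
# Upper and lower bounds for the discriminant
-/

set_option autoImplicit false

open Finset Polynomial

namespace Pool.Agent.Y692.LA

open Pool.Agent.H388SL Pool.Agent.H389R3.LR Pool.Agent.H389R3.LP

/-- upper bound for the energy -/
theorem disc_upper (Z : Finset ℂ) (hN : 1 ≤ Z.card) :
    ∑ z ∈ Z, ∑ w ∈ Z, (if z = w then 0 else Real.log ‖z - w‖) ≤
      2 * Z.card * (∑ z ∈ Z, Real.log (max 1 ‖z‖)) + Z.card * (1 + Real.log Z.card) := by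
  set N := Z.card with hN'
  set Λ := ∑ z ∈ Z, Real.log (max 1 ‖z‖) with hΛ
  have hN1' : (1:ℝ) ≤ N := by exact_mod_cast hN
  have hN0 : (0:ℝ) < N := by linarith
  set t : ℝ := 1 - 1 / N with ht
  have hNinv : 1 / (N:ℝ) ≤ 1 := by
    rw [div_le_one hN0]; exact hN1'
  have hNinv0 : 0 < 1 / (N:ℝ) := by positivity
  have ht0 : 0 ≤ t := by rw [ht]; linarith
  have ht1 : t < 1 := by rw [ht]; linarith
  have h1 := energyL Z ht0 ht1 0
  have h2 : Real.log (2 / (1 + t)) ≤ 1 / N := by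
    have h3 : 0 < 2 / (1 + t) := by positivity
    have h4 := Real.log_le_sub_one_of_pos h3
    have h5 : 2 / (1 + t) - 1 ≤ 1 / N := by
      have h6 : 2 / (1 + t) - 1 = (1 - t) / (1 + t) := by
        field_simp
        ring
      rw [h6]
      have h7 : 1 - t = 1 / N := by rw [ht]; ring
      rw [h7]
      exact div_le_self hNinv0.le (by linarith)
    linarith
  have h8 : Real.log (1 / (1 - t)) = Real.log N := by
    congr 1
    rw [ht]
    have : (N:ℝ) ≠ 0 := hN0.ne'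
    field_simp
    ring
  have h9 : (N:ℝ) ^ 2 * Real.log (2 / (1 + t)) ≤ N := by
    have := mul_le_mul_of_nonneg_left h2 (by positivity : (0:ℝ) ≤ (N:ℝ) ^ 2)
    have e : (N:ℝ) ^ 2 * (1 / N) = N := by
      have : (N:ℝ) ≠ 0 := hN0.ne'
      field_simp
    linarith
  rw [h8] at h1
  simp only [Finset.range_zero, Finset.sum_empty, add_zero] at h1
  linarith

/-- the resultant is not zero, and its logarithm is the energy -/
theorem disc_log [DecidableEq ℂ] (Q : ℤ[X]) (Z : Finset ℂ)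
    (h : Q.map (Int.castRingHom ℂ) = ∏ z ∈ Z, (X - C z)) :
    resultant Q (derivative Q) Q.natDegree (derivative Q).natDegree ≠ 0 ∧
    Real.log |((resultant Q (derivative Q) Q.natDegree (derivative Q).natDegree : ℤ) : ℝ)| =
      ∑ z ∈ Z, ∑ w ∈ Z, (if z = w then 0 else Real.log ‖z - w‖) := by
  have h1 := disc_eq Q Z h
  set r : ℤ := resultant Q (derivative Q) Q.natDegree (derivative Q).natDegree with hr
  have hne : ∀ z ∈ Z, ∀ w ∈ Z.erase z, ‖z - w‖ ≠ 0 := by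
    intro z _ w hw
    rw [norm_ne_zero_iff]
    exact sub_ne_zero.mpr (Finset.ne_of_mem_erase hw).symm
  have h3 : Real.log (∏ z ∈ Z, ∏ w ∈ Z.erase z, ‖z - w‖) =
      ∑ z ∈ Z, ∑ w ∈ Z, (if z = w then 0 else Real.log ‖z - w‖) := by
    rw [Real.log_prod fun z hz => Finset.prod_ne_zero_iff.mpr (hne z hz)]
    refine Finset.sum_congr rfl fun z hz => ?_
    rw [Real.log_prod (hne z hz), ← Finset.add_sum_erase Z _ hz, if_pos rfl, zero_add]
    refine Finset.sum_congr rfl fun w hw => ?_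
    rw [if_neg (Finset.ne_of_mem_erase hw).symm]
  have hr0 : r ≠ 0 := by
    intro h4
    have h5 : ∏ z ∈ Z, ∏ w ∈ Z.erase z, ‖z - w‖ ≠ 0 :=
      Finset.prod_ne_zero_iff.mpr fun z hz => Finset.prod_ne_zero_iff.mpr (hne z hz)
    rw [h1, h4] at h5
    simp at h5
  refine ⟨hr0, ?_⟩
  rw [← h1, h3]

/-- lower bound for the energy from congruences at finitely many primes -/
theorem disc_lower [DecidableEq ℂ] {ι : Type*} [Fintype ι] (Q : ℤ[X]) (hQ : Q.Monic)
    (Z : Finset ℂ) (h : Q.map (Int.castRingHom ℂ) = ∏ z ∈ Z, (X - C z))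
    (p : ι → ℕ) (hp : ∀ i, (p i).Prime) (hinj : Function.Injective p)
    (O : ι → Type*) [∀ i, CommRing (O i)] [∀ i, IsDomain (O i)] [∀ i, IsLocalRing (O i)]
    (e : ι → ℕ) (he : ∀ i, 1 ≤ e i) (π : ∀ i, O i) (hπ0 : ∀ i, π i ≠ 0)
    (hπ : ∀ i, ¬ IsUnit (π i)) (hassoc : ∀ i, Associated (π i ^ e i) ((p i : ℕ) : O i))
    (T : ∀ i, Finset (O i)) (hT : ∀ i, ∀ s ∈ T i, (Q.map (Int.castRingHom (O i))).eval s = 0) :
    ∑ i, (pairs (π i) (T i) : ℝ) / e i * Real.log (p i) ≤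
      ∑ z ∈ Z, ∑ w ∈ Z, (if z = w then 0 else Real.log ‖z - w‖) := by
  obtain ⟨hr0, hlog⟩ := disc_log Q Z h
  set r : ℤ := resultant Q (derivative Q) Q.natDegree (derivative Q).natDegree with hr
  have h1 : ∀ i, ∃ a : ℕ, pairs (π i) (T i) ≤ e i * a ∧ ((p i : ℕ) : ℤ) ^ a ∣ r := fun i =>
    exists_exponent (hp i) (he i) (hπ0 i) (hπ i) (hassoc i) hr0 (pow_pairs_dvd Q hQ (π i) (T i) (hT i))
  choose a ha hdvd using h1
  have h2 : ∏ i, ((p i : ℕ) : ℤ) ^ a i ∣ r := by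
    refine Finset.prod_dvd_of_coprime ?_ fun i _ => hdvd i
    intro i _ j _ hij
    apply IsCoprime.pow
    rw [Nat.isCoprime_iff_coprime, Nat.coprime_primes (hp i) (hp j)]
    exact fun h => hij (hinj h)
  have h3 : ∏ i, ((p i : ℕ) : ℤ) ^ a i ≤ |r| := Int.le_of_dvd (abs_pos.mpr hr0) (by
    rw [dvd_abs]; exact h2)
  have h4 : ∏ i, ((p i : ℕ) : ℝ) ^ a i ≤ |(r : ℝ)| := by exact_mod_cast h3
  have hp0 : ∀ i, (0:ℝ) < (p i : ℝ) := fun i => by exact_mod_cast (hp i).pos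
  have h5 : 0 < ∏ i, ((p i : ℕ) : ℝ) ^ a i := Finset.prod_pos fun i _ => pow_pos (hp0 i) _
  have h6 := Real.log_le_log h5 h4
  rw [Real.log_prod (fun i _ => (pow_pos (hp0 i) _).ne')] at h6
  rw [← hlog]
  refine le_trans (Finset.sum_le_sum fun i _ => ?_) h6
  rw [Real.log_pow]
  have he0 : (0:ℝ) < e i := by exact_mod_cast (he i)
  have hl : 0 ≤ Real.log (p i) := Real.log_nonneg (by exact_mod_cast (hp i).one_le)
  apply mul_le_mul_of_nonneg_right _ hl
  rw [div_le_iff₀ he0]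
  have := ha i
  calc (pairs (π i) (T i) : ℝ) ≤ ((e i * a i : ℕ) : ℝ) := by exact_mod_cast this
    _ = _ := by push_cast; ring

end Pool.Agent.Y692.LA
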