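import Mathlib
import Pool.Agent.Y692.LA.A2

/-!
# The inequality for the zeros in discrete valuation rings
-/

set_option autoImplicit false

open Finset Polynomial Module

namespace Pool.Agent.Y692.LA

open Pool.Agent.H388SL Pool.Agent.H389R3.LR Pool.Agent.H389R3.LP

variable {K : Type*} [Field K] [NumberField K]

lemma root_pow {O : Type*} [CommRing O] {β : K} (hβ : IsIntegral ℤ β) {x : O}
    (hx : aeval x (minpoly ℤ β) = 0) (m : ℕ) : aeval (x ^ m) (minpoly ℤ (β ^ m)) = 0 := by
  have h1 : aeval β (expand ℤ m (minpoly ℤ (β ^ m))) = 0 := by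
    rw [expand_aeval, minpoly.aeval]
  obtain ⟨g, hg⟩ := minpoly.isIntegrallyClosed_dvd hβ h1
  rw [← expand_aeval, hg, map_mul, hx, zero_mul]

lemma conjSet_eq_of_root' {O F : Type*} [CommRing O] [Field F] [CharZero F] [Algebra O F] {β γ : K}
    (hβ : IsIntegral ℤ β) (hγ : IsIntegral ℤ γ) {x : O}
    (h1 : aeval x (minpoly ℤ β) = 0) (h2 : aeval x (minpoly ℤ γ) = 0) :
    conjSet β = conjSet γ := by
  have key : ∀ δ : K, IsIntegral ℤ δ → aeval x (minpoly ℤ δ) = 0 →
      aeval (algebraMap O F x) (minpoly ℚ δ) = 0 := by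
    intro δ hδ h
    rw [minpoly.isIntegrallyClosed_eq_field_fractions' ℚ hδ, aeval_map_algebraMap,
      aeval_algebraMap_apply, h, map_zero]
  have h3 := key β hβ h1
  have h4 := key γ hγ h2
  have hβQ : IsIntegral ℚ β := Algebra.IsIntegral.isIntegral β
  have hγQ : IsIntegral ℚ γ := Algebra.IsIntegral.isIntegral γ
  have heq : minpoly ℚ β = minpoly ℚ γ := by
    by_contra hne
    have hcop : IsCoprime (minpoly ℚ β) (minpoly ℚ γ) := by
      rw [(minpoly.irreducible hβQ).coprime_iff_not_dvd]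
      intro h
      have h5 : Associated (minpoly ℚ β) (minpoly ℚ γ) :=
        (minpoly.irreducible hβQ).associated_of_dvd (minpoly.irreducible hγQ) h
      exact hne (eq_of_monic_of_associated (minpoly.monic hβQ) (minpoly.monic hγQ) h5)
    obtain ⟨a, b, hab⟩ := hcop
    have h5 := congrArg (aeval (algebraMap O F x)) hab
    rw [map_add, map_mul, map_mul, h3, h4, mul_zero, mul_zero, add_zero, map_one] at h5
    exact zero_ne_one h5
  apply Finset.coe_injective
  rw [conjSet_coe, conjSet_coe, heq]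

lemma conjSet_eq_of_root {O : Type*} [CommRing O] [IsDomain O] [CharZero O] {β γ : K}
    (hβ : IsIntegral ℤ β) (hγ : IsIntegral ℤ γ) {x : O}
    (h1 : aeval x (minpoly ℤ β) = 0) (h2 : aeval x (minpoly ℤ γ) = 0) :
    conjSet β = conjSet γ := by
  have : CharZero (FractionRing O) :=
    charZero_of_injective_algebraMap (IsFractionRing.injective O (FractionRing O))
  exact conjSet_eq_of_root' (F := FractionRing O) hβ hγ h1 h2

omit [NumberField K] in
lemma isUnit_of_root {O : Type*} [CommRing O] {β : K}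
    (hu : IsUnit ((minpoly ℤ β).coeff 0)) {r : O} (hr : aeval r (minpoly ℤ β) = 0) :
    IsUnit r := by
  have h1 : r ∣ ((minpoly ℤ β).map (Int.castRingHom O)).eval 0 := by
    have h2 := Polynomial.sub_dvd_eval_sub (0 : O) r ((minpoly ℤ β).map (Int.castRingHom O))
    have h3 : ((minpoly ℤ β).map (Int.castRingHom O)).eval r = 0 := by
      rw [eval_map]; exact hr
    rw [h3, sub_zero, zero_sub] at h2
    exact (neg_dvd.mp h2)
  rw [← coeff_zero_eq_eval_zero, coeff_map] at h1
  exact isUnit_of_dvd_unit h1 (hu.map _)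

theorem padic_part {β : K} (hβ : IsIntegral ℤ β) (hβ0 : β ≠ 0)
    (hβroot : ∀ n : ℕ, 0 < n → β ^ n ≠ 1)
    {ι : Type*} [Fintype ι] (p : ι → ℕ) (hp : ∀ i, (p i).Prime) (hinj : Function.Injective p)
    (O : ι → Type*) [∀ i, CommRing (O i)] [∀ i, IsDomain (O i)] [∀ i, IsLocalRing (O i)]
    [∀ i, CharZero (O i)] [∀ i, Finite (IsLocalRing.ResidueField (O i))]
    (e : ι → ℕ) (he : ∀ i, 1 ≤ e i) (π : ∀ i, O i) (hπ0 : ∀ i, π i ≠ 0)
    (hπm : ∀ i, IsLocalRing.maximalIdeal (O i) = Ideal.span {π i})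
    (hassoc : ∀ i, Associated (π i ^ e i) ((p i : ℕ) : O i))
    (S : ∀ i, Finset (O i)) (hS : ∀ i, ∀ s ∈ S i, aeval s (minpoly ℤ β) = 0)
    (hSu : ∀ i, ∀ s ∈ S i, IsUnit s)
    (hS' : ∀ i, ∀ s ∈ S i, ∀ t ∈ S i, s ≠ t → ∀ m : ℕ, 1 ≤ m → s ^ m ≠ t ^ m)
    (k : ℕ) (hk : 1 ≤ k) :
    ∑ i, (((k : ℝ) * (S i).card) ^ 2 /
        ((Nat.card (IsLocalRing.ResidueField (O i)) : ℝ) - 1) - k * (S i).card) / e i *
          Real.log (p i) ≤
      2 * (finrank ℚ K * k) * (k ^ 2 * lam β) +
        (finrank ℚ K * k) * (1 + Real.log (finrank ℚ K * k)) := by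
  classical
  set Z : Finset ℂ := (Finset.Icc 1 k).biUnion fun m => conjSet (β ^ m) with hZ
  set n := finrank ℚ K with hn
  have hn0 : 0 < n := finrank_pos
  have hdisj : Set.PairwiseDisjoint (↑(Finset.Icc 1 k)) (fun m => conjSet (β ^ m)) := by
    intro m _ l _ hml
    exact conj_disjoint hβ hβ0 hβroot hml
  set Q : ℤ[X] := ∏ m ∈ Finset.Icc 1 k, minpoly ℤ (β ^ m) with hQ
  have hQm : Q.Monic := monic_prod_of_monic _ _ fun m _ => minpoly.monic (hβ.pow m)
  have hQmap : Q.map (Int.castRingHom ℂ) = ∏ z ∈ Z, (X - C z) := by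
    rw [hQ, Polynomial.map_prod, hZ, Finset.prod_biUnion hdisj]
    exact Finset.prod_congr rfl fun m _ => minpolyZ_map (hβ.pow m)
  -- the zeros
  set T : ∀ i, Finset (O i) := fun i => (Finset.Icc 1 k ×ˢ S i).image (fun x => x.2 ^ x.1) with hT
  have hTcard : ∀ i, (T i).card = k * (S i).card := by
    intro i
    rw [hT]
    dsimp only
    rw [Finset.card_image_of_injOn, Finset.card_product, Nat.card_Icc]
    · simp
    · rintro ⟨m, s⟩ hx ⟨l, s'⟩ hy hxy
      rw [Finset.mem_coe, Finset.mem_product, Finset.mem_Icc] at hx hy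
      dsimp only at hx hy hxy
      have hml : m = l := by
        by_contra hne
        have h1 := root_pow hβ (hS i s hx.2) m
        have h2 := root_pow hβ (hS i s' hy.2) l
        rw [← hxy] at h2
        have h3 := conjSet_eq_of_root (hβ.pow m) (hβ.pow l) h1 h2
        rcases lt_or_gt_of_ne hne with h | h
        · exact conj_disj hβ hβ0 hβroot h h3
        · exact conj_disj hβ hβ0 hβroot h h3.symm
      subst hml
      have hss : s = s' := by
        by_contra hne
        exact hS' i s hx.2 s' hy.2 hne m hx.1.1 hxy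
      rw [hss]
  have hTroot : ∀ i, ∀ s ∈ T i, (Q.map (Int.castRingHom (O i))).eval s = 0 := by
    intro i x hx
    rw [hT] at hx
    dsimp only at hx
    rw [Finset.mem_image] at hx
    obtain ⟨⟨m, s⟩, hms, rfl⟩ := hx
    rw [Finset.mem_product] at hms
    have h1 := root_pow hβ (hS i s hms.2) m
    rw [hQ, Polynomial.map_prod, eval_prod]
    refine Finset.prod_eq_zero hms.1 ?_
    rw [eval_map]
    exact h1
  have hTunit : ∀ i, ∀ s ∈ T i, IsUnit s := by
    intro i x hx
    rw [hT] at hx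
    dsimp only at hx
    rw [Finset.mem_image] at hx
    obtain ⟨⟨m, s⟩, hms, rfl⟩ := hx
    rw [Finset.mem_product] at hms
    exact (hSu i s hms.2).pow m
  have hπ : ∀ i, ¬ IsUnit (π i) := by
    intro i h
    have h1 : π i ∈ IsLocalRing.maximalIdeal (O i) := by
      rw [hπm i]; exact Ideal.mem_span_singleton_self _
    exact (IsLocalRing.mem_maximalIdeal (π i)).mp h1 h
  have hlow := disc_lower Q hQm Z hQmap p hp hinj O e he π hπ0 hπ hassoc T hTroot
  -- pigeonhole
  have hpig : ∀ i, ((k : ℝ) * (S i).card) ^ 2 /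
      ((Nat.card (IsLocalRing.ResidueField (O i)) : ℝ) - 1) - k * (S i).card ≤
      pairs (π i) (T i) := by
    intro i
    have h1 := card_sq_le (IsLocalRing.residue (O i)) (π i) (fun x hx => by
      have h2 := (IsLocalRing.residue_eq_zero_iff x).mp hx
      rw [hπm i, Ideal.mem_span_singleton] at h2
      exact h2) (T i) (fun s hs => (IsUnit.map (IsLocalRing.residue (O i)) (hTunit i s hs)).ne_zero)
    rw [hTcard i] at h1
    push_cast at h1
    have hq : (0:ℝ) < (Nat.card (IsLocalRing.ResidueField (O i)) : ℝ) - 1 := by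
      have : 1 < Nat.card (IsLocalRing.ResidueField (O i)) := Finite.one_lt_card
      have : (1:ℝ) < (Nat.card (IsLocalRing.ResidueField (O i)) : ℝ) := by exact_mod_cast this
      linarith
    have h3 := (div_le_iff₀' hq).mpr h1
    linarith
  -- the number of elements
  have hcard : Z.card ≤ n * k := by
    rw [hZ]
    refine Finset.card_biUnion_le.trans ?_
    refine (Finset.sum_le_sum fun m _ => card_conjSet_le (β ^ m)).trans ?_
    rw [Finset.sum_const, Nat.card_Icc, smul_eq_mul, ← hn]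
    simp [mul_comm]
  have hZ1 : 1 ≤ Z.card := by
    rw [Nat.one_le_iff_ne_zero, ← Nat.pos_iff_ne_zero, Finset.card_pos]
    have hne : (Finset.univ : Finset (K →ₐ[ℚ] ℂ)).Nonempty := by
      rw [← Finset.card_pos, Finset.card_univ, AlgHom.card]
      exact finrank_pos
    obtain ⟨σ, _⟩ := hne
    refine ⟨σ (β ^ 1), ?_⟩
    rw [hZ, Finset.mem_biUnion]
    exact ⟨1, Finset.mem_Icc.mpr ⟨le_rfl, hk⟩, mem_conjSet.mpr ⟨σ, rfl⟩⟩
  -- the Mahler measure
  have hlam : ∑ z ∈ Z, Real.log (max 1 ‖z‖) ≤ k ^ 2 * lam β := by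
    rw [hZ, Finset.sum_biUnion hdisj]
    have h1 : ∀ m ∈ Finset.Icc 1 k, ∑ z ∈ conjSet (β ^ m), Real.log (max 1 ‖z‖) ≤ k * lam β := by
      intro m hm
      refine (sum_conjSet_le (β ^ m) _ fun z => Real.log_nonneg (le_max_left _ _)).trans ?_
      have h2 := lam_pow β m
      unfold lam at h2
      rw [h2]
      have h3 : (m:ℝ) ≤ k := by exact_mod_cast (Finset.mem_Icc.mp hm).2
      exact mul_le_mul_of_nonneg_right h3 (lam_nonneg β)
    refine (Finset.sum_le_sum h1).trans ?_
    rw [Finset.sum_const, Nat.card_Icc, nsmul_eq_mul]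
    simp only [Nat.add_sub_cancel]
    apply le_of_eq
    ring
  have hup := disc_upper Z hZ1
  have hcard' : (Z.card : ℝ) ≤ n * k := by exact_mod_cast hcard
  have hnk : (1:ℝ) ≤ n * k := by
    have : 1 ≤ n * k := Nat.mul_pos hn0 hk
    exact_mod_cast this
  have hlogle : Real.log Z.card ≤ Real.log (n * k) :=
    Real.log_le_log (by exact_mod_cast hZ1) hcard'
  have hl0 := lam_nonneg β
  have hs0 : 0 ≤ ∑ z ∈ Z, Real.log (max 1 ‖z‖) :=
    Finset.sum_nonneg fun z _ => Real.log_nonneg (le_max_left _ _)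
  have hlc : 0 ≤ Real.log Z.card := Real.log_natCast_nonneg _
  have h1 : 2 * (Z.card : ℝ) * (∑ z ∈ Z, Real.log (max 1 ‖z‖)) ≤
      2 * (n * k) * (k ^ 2 * lam β) := by
    have := mul_le_mul (mul_le_mul_of_nonneg_left hcard' (by norm_num : (0:ℝ) ≤ 2)) hlam hs0
      (by positivity)
    exact this
  have h2 : (Z.card : ℝ) * (1 + Real.log Z.card) ≤ (n * k) * (1 + Real.log (n * k)) := by
    exact mul_le_mul hcard' (by linarith) (by linarith) (by positivity)
  have h3 : ∑ i, (((k : ℝ) * (S i).card) ^ 2 /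
        ((Nat.card (IsLocalRing.ResidueField (O i)) : ℝ) - 1) - k * (S i).card) / e i *
          Real.log (p i) ≤ ∑ i, (pairs (π i) (T i) : ℝ) / e i * Real.log (p i) := by
    refine Finset.sum_le_sum fun i _ => ?_
    have hl : 0 ≤ Real.log (p i) := Real.log_nonneg (by exact_mod_cast (hp i).one_le)
    exact mul_le_mul_of_nonneg_right (div_le_div_of_nonneg_right (hpig i) (Nat.cast_nonneg _)) hl
  linarith

end Pool.Agent.Y692.LA
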