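import Mathlib
import Pool.Agent.Y692.LA.A3

/-!
# Choice of the number of powers
-/

set_option autoImplicit false

open Finset Polynomial Module

namespace Pool.Agent.Y692.LA

open Pool.Agent.H388SL Pool.Agent.H389R3.LR Pool.Agent.H389R3.LP

lemma choice {n H G lam : ℝ} (hn : 1 ≤ n) (hH : Real.log (2 * n) ≤ H) (hG : 1 / 2 ≤ G)
    (hlam : 0 ≤ lam)
    (h : ∀ k : ℕ, 1 ≤ k → (k : ℝ) ^ 2 * G ≤ 1056 * (n * k) * (k ^ 2 * lam) +
      212 * (n * k) * (1 + H + Real.log k)) :
    min (G / n) (G ^ 2 / (n ^ 2 * H)) ≤ 7 * 10 ^ 7 * lam := by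
  have hlog2 : 0.6931471803 < Real.log 2 := Real.log_two_gt_d9
  have hlog2' : Real.log 2 < 0.6931471808 := Real.log_two_lt_d9
  have hl2 : Real.log 2 ≤ H := le_trans (Real.log_le_log two_pos (by linarith)) hH
  have hH0 : 0 < H := by linarith
  have hn0 : 0 < n := by linarith
  have hG0 : 0 < G := by linarith
  set x : ℝ := 16384 * n * H / G with hx
  have hx0 : 0 < x := by positivity
  have hxG : x * G = 16384 * n * H := by rw [hx]; field_simp
  rcases le_total x 1 with hx1 | hx1
  · -- one power is enough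
    refine (min_le_left _ _).trans ?_
    rw [div_le_iff₀ hn0]
    have h1 := h 1 le_rfl
    simp only [Nat.cast_one, one_pow, one_mul, mul_one, Real.log_one, add_zero] at h1
    have h2 : 16384 * n * H ≤ G := by
      rw [← hxG]; nlinarith
    have h3 : 0 ≤ n * lam := by positivity
    have h4 : 0 ≤ n * H := by positivity
    have h5 : n * 1 ≤ n * (1.45 * H) := mul_le_mul_of_nonneg_left (by linarith) hn0.le
    nlinarith
  · set k : ℕ := ⌈x⌉₊ with hk
    have hk1 : 1 ≤ k := Nat.one_le_iff_ne_zero.mpr (Nat.ceil_pos.mpr hx0).ne'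
    have hkx : x ≤ k := Nat.le_ceil x
    have hkx1 : (k:ℝ) < x + 1 := Nat.ceil_lt_add_one hx0.le
    have hk0 : (0:ℝ) < k := by linarith
    have hk2 : (k:ℝ) ≤ 2 * x := by linarith
    refine (min_le_right _ _).trans ?_
    have hlogk : Real.log k ≤ 18 * H := by
      have h1 : (k:ℝ) ≤ 2 ^ 16 * n * H := by
        have h2 : x ≤ 32768 * n * H := by
          rw [hx, div_le_iff₀ hG0]
          have : 0 ≤ n * H := by positivity
          nlinarith
        have h3 : (2:ℝ) ^ 16 = 65536 := by norm_num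
        rw [h3]
        linarith
      have h2 := Real.log_le_log hk0 h1
      have h3 : Real.log (2 ^ 16 * n * H) = 16 * Real.log 2 + Real.log n + Real.log H := by
        rw [Real.log_mul (by positivity) (by positivity), Real.log_mul (by positivity) (by positivity),
          Real.log_pow]
        push_cast
        ring
      have h4 : Real.log n ≤ H := le_trans (Real.log_le_log hn0 (by linarith)) hH
      have h5 : Real.log H ≤ H := by
        have := Real.log_le_sub_one_of_pos hH0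
        linarith
      linarith
    have h1 := h k hk1
    have hbig : 212 * (n * k) * (1 + H + Real.log k) ≤ k ^ 2 * G / 2 := by
      have h2 : 1 + H + Real.log k ≤ 20.5 * H := by linarith
      have h3 : 212 * (n * k) * (1 + H + Real.log k) ≤ 212 * (n * k) * (20.5 * H) :=
        mul_le_mul_of_nonneg_left h2 (by positivity)
      have h4 : 16384 * n * H ≤ k * G := by
        rw [← hxG]; exact mul_le_mul_of_nonneg_right hkx hG0.le
      have h5 : k * (16384 * n * H) ≤ k * (k * G) := mul_le_mul_of_nonneg_left h4 hk0.le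
      have h6 : 0 ≤ k * n * H := by positivity
      nlinarith
    have h2 : k * (k * G) ≤ k * (k * (2112 * n * k * lam)) := by
      have e1 : k * (k * G) = k ^ 2 * G := by ring
      have e2 : k * (k * (2112 * n * k * lam)) = 2 * (1056 * (n * k) * (k ^ 2 * lam)) := by ring
      rw [e1, e2]
      linarith
    have h3 : G ≤ 2112 * n * k * lam :=
      le_of_mul_le_mul_left (le_of_mul_le_mul_left h2 hk0) hk0
    have h4 : G ≤ 2112 * n * (2 * x) * lam := by
      refine h3.trans ?_
      apply mul_le_mul_of_nonneg_right _ hlam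
      exact mul_le_mul_of_nonneg_left hk2 (by positivity)
    rw [div_le_iff₀ (by positivity)]
    have h5 : G ^ 2 ≤ 2112 * n * (2 * (x * G)) * lam := by
      have := mul_le_mul_of_nonneg_right h4 hG0.le
      have e1 : 2112 * n * (2 * x) * lam * G = 2112 * n * (2 * (x * G)) * lam := by ring
      rw [← e1, sq]
      exact this
    rw [hxG] at h5
    have h6 : 0 ≤ n ^ 2 * H * lam := by positivity
    nlinarith

lemma num {n k G G1 P R h H L M lam : ℝ} (hn : 0 < n) (hk : 1 ≤ k) (hG : G = R ^ 2 + G1)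
    (hP : R ^ 2 ≤ 4 * P ^ 2) (hG1 : 0 ≤ G1) (hh : 0 ≤ h) (hlam : 0 ≤ lam) (hL : 0 ≤ 1 + L)
    (hHn : 1 + L + h / n ≤ 1 + H + M)
    (hreal : (k * P) ^ 2 ≤ 130 * (n * k) * (k ^ 2 * (2 * lam)) + 52 * (n * k) * (1 + L))
    (hpad : k ^ 2 * G1 - k * h ≤ 2 * (n * k) * (k ^ 2 * (2 * lam)) + (n * k) * (1 + L)) :
    k ^ 2 * G ≤ 1056 * (n * k) * (k ^ 2 * lam) + 212 * (n * k) * (1 + H + M) := by
  have hk0 : 0 < k := by linarith
  have hnk : 0 < n * k := by positivity
  have h1 : k ^ 2 * G ≤ 4 * ((k * P) ^ 2 + k ^ 2 * G1) := by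
    rw [hG]
    have h2 := mul_le_mul_of_nonneg_left hP (by positivity : 0 ≤ k ^ 2)
    have h3 : 0 ≤ k ^ 2 * G1 := by positivity
    linarith [mul_pow k P 2]
  have hhn : k * h = (n * k) * (h / n) := by field_simp
  have hfin : (n * k) * (1 + L + h / n) ≤ (n * k) * (1 + H + M) :=
    mul_le_mul_of_nonneg_left hHn hnk.le
  have hhn0 : 0 ≤ (n * k) * (h / n) := by positivity
  have e1 : (n * k) * (1 + L + h / n) = (n * k) * (1 + L) + (n * k) * (h / n) := by ring
  rw [e1] at hfin
  linarith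

variable {K : Type*} [Field K] [NumberField K]

theorem field_adelic {α : K} (hα : IsIntegral ℤ α) (h0 : α ≠ 0)
    (hroot : ∀ n : ℕ, 0 < n → α ^ n ≠ 1) (hu : IsUnit ((minpoly ℤ α).coeff 0))
    {ι : Type*} [Fintype ι] (p : ι → ℕ) (hp : ∀ i, (p i).Prime) (hinj : Function.Injective p)
    (O : ι → Type*) [∀ i, CommRing (O i)] [∀ i, IsDomain (O i)] [∀ i, IsLocalRing (O i)]
    [∀ i, CharZero (O i)] [∀ i, Finite (IsLocalRing.ResidueField (O i))]
    (e : ι → ℕ) (he : ∀ i, 1 ≤ e i) (π : ∀ i, O i) (hπ0 : ∀ i, π i ≠ 0)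
    (hπm : ∀ i, IsLocalRing.maximalIdeal (O i) = Ideal.span {π i})
    (hassoc : ∀ i, Associated (π i ^ e i) ((p i : ℕ) : O i))
    (S : ∀ i, Finset (O i)) (hS : ∀ i, ∀ s ∈ S i, aeval s (minpoly ℤ α) = 0)
    (hS' : ∀ i, ∀ s ∈ S i, ∀ t ∈ S i, s ≠ t → ∀ m : ℕ, 1 ≤ m → s ^ m ≠ t ^ m)
    {G H : ℝ} (hG : G = (realPow α 1 : ℝ) ^ 2 + ∑ i, ((S i).card : ℝ) ^ 2 * Real.log (p i) /
      (e i * ((Nat.card (IsLocalRing.ResidueField (O i)) : ℝ) - 1)))
    (hH : H = Real.log (2 * finrank ℚ K) +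
      (∑ i, ((S i).card : ℝ) * Real.log (p i) / e i) / finrank ℚ K) (hG1 : 1 / 2 ≤ G) :
    min (G / finrank ℚ K) (G ^ 2 / ((finrank ℚ K : ℝ) ^ 2 * H)) ≤ 7 * 10 ^ 7 * lam α := by
  classical
  have hn0 : 0 < finrank ℚ K := finrank_pos
  have hn1 : (1:ℝ) ≤ finrank ℚ K := by exact_mod_cast hn0
  set n : ℝ := (finrank ℚ K : ℝ) with hn
  have hnpos : 0 < n := by linarith
  set h : ℝ := (∑ i, ((S i).card : ℝ) * Real.log (p i) / e i) with hh
  have hlp : ∀ i, 0 ≤ Real.log (p i) := fun i =>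
    Real.log_nonneg (by exact_mod_cast (hp i).one_le)
  have hh0 : 0 ≤ h := Finset.sum_nonneg fun i _ => by
    have := hlp i
    positivity
  set G1 : ℝ := ∑ i, ((S i).card : ℝ) ^ 2 * Real.log (p i) /
      (e i * ((Nat.card (IsLocalRing.ResidueField (O i)) : ℝ) - 1)) with hG1def
  -- the square of `α`
  have hβroot : ∀ n : ℕ, 0 < n → (α ^ 2) ^ n ≠ 1 := by
    intro m hm h
    rw [← pow_mul] at h
    exact hroot _ (Nat.mul_pos two_pos hm) h
  have hβ0 : α ^ 2 ≠ 0 := pow_ne_zero _ h0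
  have hβ : IsIntegral ℤ (α ^ 2) := hα.pow 2
  have hlam2 : lam (α ^ 2) = 2 * lam α := by rw [lam_pow]; push_cast; ring
  have hl0 := lam_nonneg α
  refine choice hn1 (by rw [hH]; linarith [div_nonneg hh0 hnpos.le]) hG1 hl0 ?_
  intro k hk
  have hk1 : (1:ℝ) ≤ k := by exact_mod_cast hk
  have hreal := main_ineq hβ hβ0 hβroot k hk
  set S2 : ∀ i, Finset (O i) := fun i => (S i).image (fun s => s ^ 2) with hS2
  have hS2card : ∀ i, (S2 i).card = (S i).card := by
    intro i
    rw [hS2]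
    dsimp only
    rw [Finset.card_image_of_injOn]
    intro s hs t ht hst
    by_contra hne
    exact hS' i s hs t ht hne 2 (by norm_num) hst
  have hpad := padic_part hβ hβ0 hβroot p hp hinj O e he π hπ0 hπm hassoc S2
    (by
      intro i s hs
      rw [hS2] at hs
      dsimp only at hs
      rw [Finset.mem_image] at hs
      obtain ⟨t, ht, rfl⟩ := hs
      exact root_pow hα (hS i t ht) 2)
    (by
      intro i s hs
      rw [hS2] at hs
      dsimp only at hs
      rw [Finset.mem_image] at hs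
      obtain ⟨t, ht, rfl⟩ := hs
      exact (isUnit_of_root hu (hS i t ht)).pow 2)
    (by
      intro i s hs t ht hst m hm
      rw [hS2] at hs ht
      dsimp only at hs ht
      rw [Finset.mem_image] at hs ht
      obtain ⟨s', hs', rfl⟩ := hs
      obtain ⟨t', ht', rfl⟩ := ht
      rw [← pow_mul, ← pow_mul]
      refine hS' i s' hs' t' ht' ?_ (2 * m) (by omega)
      rintro rfl
      exact hst rfl)
    k hk
  -- rewrite the sum
  have hsum : ∑ i, (((k : ℝ) * (S2 i).card) ^ 2 /
        ((Nat.card (IsLocalRing.ResidueField (O i)) : ℝ) - 1) - k * (S2 i).card) / e i *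
          Real.log (p i) = (k:ℝ) ^ 2 * G1 - k * h := by
    rw [hG1def, hh, Finset.mul_sum, Finset.mul_sum, ← Finset.sum_sub_distrib]
    refine Finset.sum_congr rfl fun i _ => ?_
    rw [hS2card i]
    have he0 : (e i : ℝ) ≠ 0 := by
      have := he i
      positivity
    have hq : (0:ℝ) < (Nat.card (IsLocalRing.ResidueField (O i)) : ℝ) - 1 := by
      have : 1 < Nat.card (IsLocalRing.ResidueField (O i)) := Finite.one_lt_card
      have : (1:ℝ) < (Nat.card (IsLocalRing.ResidueField (O i)) : ℝ) := by exact_mod_cast this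
      linarith
    have hq0 := hq.ne'
    field_simp
  rw [hsum] at hpad
  -- real part
  have hP : (realPow α 1 : ℝ) ≤ 2 * (posPart (conjSet (α ^ 2))).card := by
    have := realPow_le h0 (le_refl 1)
    exact_mod_cast this
  set P : ℝ := ((posPart (conjSet (α ^ 2))).card : ℝ) with hPdef
  have hP0 : 0 ≤ P := Nat.cast_nonneg _
  have hR0 : (0:ℝ) ≤ (realPow α 1 : ℝ) := Nat.cast_nonneg _
  have hP2 : (realPow α 1 : ℝ) ^ 2 ≤ 4 * P ^ 2 := by nlinarith
  have hk2 : 0 ≤ (k:ℝ) ^ 2 := by positivity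
  have hG1nn : 0 ≤ G1 := Finset.sum_nonneg fun i _ => by
    have h1 := hlp i
    have hq : (0:ℝ) < (Nat.card (IsLocalRing.ResidueField (O i)) : ℝ) - 1 := by
      have : 1 < Nat.card (IsLocalRing.ResidueField (O i)) := Finite.one_lt_card
      have : (1:ℝ) < (Nat.card (IsLocalRing.ResidueField (O i)) : ℝ) := by exact_mod_cast this
      linarith
    have h2 : 0 ≤ (e i : ℝ) := Nat.cast_nonneg _
    positivity
  have hlognk : Real.log (n * k) = Real.log n + Real.log k :=
    Real.log_mul hnpos.ne' (by linarith)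
  have hlogn : Real.log n ≤ Real.log (2 * n) := Real.log_le_log hnpos (by linarith)
  have hlogk0 : 0 ≤ Real.log k := Real.log_nonneg hk1
  have hlogn0 : 0 ≤ Real.log n := Real.log_nonneg hn1
  rw [hlam2] at hreal hpad
  refine num hnpos hk1 hG hP2 hG1nn hh0 hl0 (by rw [hlognk]; linarith) ?_ hreal hpad
  rw [hlognk, hH]; linarith

end Pool.Agent.Y692.LA
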