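import Mathlib
import Pool.Agent.Y692.LA.A4

/-!
# Transfer to integer polynomials
-/

set_option autoImplicit false

open Finset Polynomial Module IntermediateField

namespace Pool.Agent.Y692.LA

open Pool.Agent.H388SL Pool.Agent.H389R3.LR Pool.Agent.H389R3.LP

/-- the number of real zeros -/
noncomputable def realRoots (f : ℤ[X]) : ℕ := Multiset.card (f.map (Int.castRingHom ℝ)).roots

theorem irr_adelic (f : ℤ[X]) (hf : Irreducible f) (hm : f.Monic) (hu : IsUnit (f.coeff 0))
    (hM : 1 < (f.map (Int.castRingHom ℂ)).mahlerMeasure)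
    {ι : Type*} [Fintype ι] (p : ι → ℕ) (hp : ∀ i, (p i).Prime) (hinj : Function.Injective p)
    (O : ι → Type*) [∀ i, CommRing (O i)] [∀ i, IsDomain (O i)] [∀ i, IsLocalRing (O i)]
    [∀ i, CharZero (O i)] [∀ i, Finite (IsLocalRing.ResidueField (O i))]
    (e : ι → ℕ) (he : ∀ i, 1 ≤ e i) (π : ∀ i, O i) (hπ0 : ∀ i, π i ≠ 0)
    (hπm : ∀ i, IsLocalRing.maximalIdeal (O i) = Ideal.span {π i})
    (hassoc : ∀ i, Associated (π i ^ e i) ((p i : ℕ) : O i))
    (S : ∀ i, Finset (O i)) (hS : ∀ i, ∀ s ∈ S i, aeval s f = 0)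
    (hS' : ∀ i, ∀ s ∈ S i, ∀ t ∈ S i, s ≠ t → ∀ m : ℕ, 1 ≤ m → s ^ m ≠ t ^ m)
    {G H : ℝ} (hG : G = (realRoots f : ℝ) ^ 2 + ∑ i, ((S i).card : ℝ) ^ 2 * Real.log (p i) /
      (e i * ((Nat.card (IsLocalRing.ResidueField (O i)) : ℝ) - 1)))
    (hH : H = Real.log (2 * f.natDegree) +
      (∑ i, ((S i).card : ℝ) * Real.log (p i) / e i) / f.natDegree) (hG1 : 1 / 2 ≤ G) :
    min (G / f.natDegree) (G ^ 2 / ((f.natDegree : ℝ) ^ 2 * H)) ≤
      7 * 10 ^ 7 * Real.log (f.map (Int.castRingHom ℂ)).mahlerMeasure := by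
  classical
  have hdeg : f.natDegree ≠ 0 := by
    intro h
    have := hm.natDegree_eq_zero.mp h
    exact hf.not_isUnit (this ▸ isUnit_one)
  obtain ⟨z, hz⟩ := IsAlgClosed.exists_aeval_eq_zero ℂ f (by
    intro h
    exact hdeg (natDegree_eq_of_degree_eq_some h))
  have hzi : IsIntegral ℤ z := ⟨f, hm, by rw [← Polynomial.aeval_def]; exact hz⟩
  have hzQ : IsIntegral ℚ z := hzi.tower_top
  have hmin : minpoly ℤ z = f := by
    have h1 := minpoly.isIntegrallyClosed_dvd hzi hz
    have h2 : Associated (minpoly ℤ z) f :=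
      (minpoly.irreducible hzi).associated_of_dvd hf h1
    exact eq_of_monic_of_associated (minpoly.monic hzi) hm h2
  set L := adjoin ℚ {z} with hL
  have hfin : FiniteDimensional ℚ L := adjoin.finiteDimensional hzQ
  have : NumberField L := { to_charZero := inferInstance, to_finiteDimensional := hfin }
  set α : L := AdjoinSimple.gen ℚ z with hα
  have hαz : algebraMap L ℂ α = z := AdjoinSimple.algebraMap_gen ℚ z
  have hαi : IsIntegral ℤ α := by
    rw [← hαz] at hzi
    exact (isIntegral_algebraMap_iff (algebraMap L ℂ).injective).mp hzi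
  have hαc : CInj α := by
    intro σ τ h
    apply adjoin_algHom_ext ℚ (s := {z})
    intro x hx
    rw [Set.mem_singleton_iff] at hx
    subst hx
    exact h
  have hminα : minpoly ℤ α = f := by
    rw [← hmin, ← hαz]
    exact (minpoly.algebraMap_eq (algebraMap L ℂ).injective α).symm
  have hpmap : f.map (Int.castRingHom ℂ) = ∏ τ : L →ₐ[ℚ] ℂ, (X - C (τ α)) := by
    rw [← minpoly_map_eq hαc, minpoly.isIntegrallyClosed_eq_field_fractions' ℚ hαi, hminα,
      Polynomial.map_map]
    rfl
  have hMM : Real.log (f.map (Int.castRingHom ℂ)).mahlerMeasure = lam α := by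
    rw [hpmap]
    have h1 : (∏ τ : L →ₐ[ℚ] ℂ, (X - C (τ α))).mahlerMeasure = ∏ τ : L →ₐ[ℚ] ℂ, max 1 ‖τ α‖ := by
      rw [Finset.prod_eq_multiset_prod, prod_mahlerMeasure_eq_mahlerMeasure_prod, Multiset.map_map,
        Finset.prod_eq_multiset_prod]
      congr 1
      refine Multiset.map_congr rfl fun τ _ => ?_
      rw [Function.comp_apply, mahlerMeasure_X_sub_C]
    rw [h1, Real.log_prod]
    · rfl
    · intro τ _
      have : (0:ℝ) < max 1 ‖τ α‖ := lt_of_lt_of_le one_pos (le_max_left _ _)
      exact this.ne'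
  have hfr : finrank ℚ L = f.natDegree := by
    rw [hL, adjoin.finrank hzQ, minpoly.isIntegrallyClosed_eq_field_fractions' ℚ hzi, hmin]
    exact natDegree_map_eq_of_injective (algebraMap ℤ ℚ).injective_int f
  have hlampos : 0 < lam α := by
    rw [← hMM]; exact Real.log_pos hM
  have hα0 : α ≠ 0 := by
    intro h
    rw [h] at hlampos
    unfold lam at hlampos
    simp at hlampos
  have hαroot : ∀ n : ℕ, 0 < n → α ^ n ≠ 1 := by
    intro n hn h
    have h1 := lam_pow α n
    rw [h] at h1
    have h2 : lam (1 : L) = 0 := by unfold lam; simp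
    rw [h2] at h1
    have h3 : (0:ℝ) < n := by exact_mod_cast hn
    have : 0 < (n:ℝ) * lam α := mul_pos h3 hlampos
    linarith
  -- the real zeros
  have hsep : (minpoly ℚ α).Separable := (minpoly.irreducible (hαi.tower_top)).separable
  have hR : realRoots f ≤ realPow α 1 := by
    have hnd : (f.map (Int.castRingHom ℝ)).roots.Nodup := by
      apply nodup_roots
      have h2 : f.map (Int.castRingHom ℝ) = (minpoly ℚ α).map (algebraMap ℚ ℝ) := by
        rw [minpoly.isIntegrallyClosed_eq_field_fractions' ℚ hαi, hminα, Polynomial.map_map]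
        congr 1
      rw [h2]
      exact hsep.map
    have h1 := minpolyZ_map hαi
    rw [hminα] at h1
    unfold realRoots realPow
    rw [← Multiset.toFinset_card_of_nodup hnd]
    refine Finset.card_le_card_of_injOn (fun x : ℝ => (x : ℂ)) ?_ ?_
    · intro x hx
      rw [Finset.mem_coe, Multiset.mem_toFinset, mem_roots (hm.map _).ne_zero, IsRoot.def,
        eval_map] at hx
      rw [Finset.mem_coe, Finset.mem_filter]
      dsimp only
      refine ⟨?_, by rw [pow_one, Complex.ofReal_im]⟩
      have h3 : (f.map (Int.castRingHom ℂ)).eval (x : ℂ) = 0 := by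
        rw [eval_map]
        have h4 := Polynomial.hom_eval₂ f (Int.castRingHom ℝ) (algebraMap ℝ ℂ) x
        have h5 : (algebraMap ℝ ℂ).comp (Int.castRingHom ℝ) = Int.castRingHom ℂ :=
          RingHom.ext_int _ _
        rw [h5, hx, map_zero] at h4
        exact h4.symm
      rw [h1, eval_prod, Finset.prod_eq_zero_iff] at h3
      obtain ⟨w, hw, hw0⟩ := h3
      rw [eval_sub, eval_X, eval_C, sub_eq_zero] at hw0
      rw [hw0]
      exact hw
    · intro x _ y _ hxy
      exact Complex.ofReal_injective hxy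
  -- comparison
  set G' : ℝ := (realPow α 1 : ℝ) ^ 2 + ∑ i, ((S i).card : ℝ) ^ 2 * Real.log (p i) /
      (e i * ((Nat.card (IsLocalRing.ResidueField (O i)) : ℝ) - 1)) with hG'
  have hRR : (realRoots f : ℝ) ≤ realPow α 1 := by exact_mod_cast hR
  have hGG : G ≤ G' := by
    rw [hG, hG']
    have := pow_le_pow_left₀ (Nat.cast_nonneg _) hRR 2
    linarith
  have h := field_adelic hαi hα0 hαroot (by rw [hminα]; exact hu) p hp hinj O e he π hπ0 hπm
    hassoc S (by rw [hminα]; exact hS) hS' hG' (H := H) (by rw [hfr]; exact hH)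
    (le_trans hG1 hGG)
  rw [hfr, ← hMM] at h
  refine le_trans ?_ h
  have hG0 : 0 ≤ G := by linarith
  have hn1 : (1:ℝ) ≤ f.natDegree := by exact_mod_cast Nat.one_le_iff_ne_zero.mpr hdeg
  have hlog : 0 < Real.log (2 * f.natDegree) := Real.log_pos (by linarith)
  have hH0 : 0 < H := by
    rw [hH]
    have : 0 ≤ (∑ i, ((S i).card : ℝ) * Real.log (p i) / e i) / f.natDegree := by
      apply div_nonneg _ (Nat.cast_nonneg _)
      refine Finset.sum_nonneg fun i _ => ?_
      have : 0 ≤ Real.log (p i) := Real.log_nonneg (by exact_mod_cast (hp i).one_le)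
      positivity
    linarith
  apply min_le_min
  · exact div_le_div_of_nonneg_right hGG (by positivity)
  · exact div_le_div_of_nonneg_right (pow_le_pow_left₀ hG0 hGG 2) (by positivity)

end Pool.Agent.Y692.LA
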